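import Mathlib

/-!
# MP_0ef12e_an : a square root of the shift on a random substitution subshift

We exhibit a primitive, compatible, non-degenerate random substitution on three letters
such that the shift has a square root in the automorphism group of its subshift.
-/

namespace Pool.Agent.Results.MP_0ef12e_an.SquareRootOfShift

/-- A random substitution on the alphabet `A`: each letter goes to a nonempty finite set of
nonempty finite words. -/
structure RandomSubstitution (A : Type) where
  img : A → Set (List A)
  finite_img : ∀ a, (img a).Finite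
  nonempty_img : ∀ a, (img a).Nonempty
  ne_nil : ∀ a, ∀ w ∈ img a, w ≠ []

namespace RandomSubstitution

variable {A : Type} (θ : RandomSubstitution A)

/-- The set of images of a word: `ϑ(u₀ ⋯ uₙ) = ϑ(u₀) ⋯ ϑ(uₙ)` (set concatenation). -/
def onWord : List A → Set (List A)
  | [] => {[]}
  | a :: u => {w | ∃ v ∈ θ.img a, ∃ v' ∈ onWord u, w = v ++ v'}

/-- The image of a set of words: the union of the images of its elements. -/
def onSet (S : Set (List A)) : Set (List A) := ⋃ u ∈ S, θ.onWord u

/-- `ϑ^p(a)`, with `ϑ^0 = Id`. -/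
def pow (p : ℕ) (a : A) : Set (List A) := (θ.onSet)^[p] {[a]}

/-- A word is legal if it is a subword of some element of some `ϑ^p(a)`, `p ≥ 0`. -/
def Legal (w : List A) : Prop := ∃ (a : A) (p : ℕ), ∃ u ∈ θ.pow p a, w <:+: u

/-- The finite subword `x_i x_{i+1} ⋯ x_{i+n-1}` of a bi-infinite sequence. -/
def window (x : ℤ → A) (i : ℤ) (n : ℕ) : List A :=
  (List.range n).map fun j : ℕ => x (i + (j : ℤ))

/-- The RS-subshift: all finite subwords are legal. -/
def X : Set (ℤ → A) := {x | ∀ (i : ℤ) (n : ℕ), θ.Legal (window x i n)}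

/-- Compatible: for each letter `a`, all words in `ϑ(a)` contain each letter the same number
of times. -/
def Compatible [DecidableEq A] : Prop :=
  ∀ a, ∀ u ∈ θ.img a, ∀ v ∈ θ.img a, ∀ b, u.count b = v.count b

/-- Primitive: some `p ≥ 1` is such that every letter `a` occurs in some word of `ϑ^p(b)`, for
every letter `b`. -/
def Primitive : Prop := ∃ p, 1 ≤ p ∧ ∀ a b, ∃ w ∈ θ.pow p b, a ∈ w

/-- Non-degenerate: some letter has at least two images. -/
def NonDegenerate : Prop := ∃ a, 2 ≤ (θ.img a).ncard

/-- The RS-subshift is invariant under the shift. -/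
theorem shift_mem {x : ℤ → A} (hx : x ∈ θ.X) : (fun i => x (i + 1)) ∈ θ.X := by
  intro i n
  have h := hx (i + 1) n
  have e : window (fun i => x (i + 1)) i n = window x (i + 1) n := by
    unfold window
    apply List.map_congr_left
    intro j _
    show x (i + (j : ℤ) + 1) = x (i + 1 + (j : ℤ))
    congr 1
    ring
  rw [e]
  exact h

/-- The shift `σ(x)_i = x_{i+1}` restricted to the RS-subshift. -/
def shift (x : θ.X) : θ.X := ⟨fun i => x.1 (i + 1), θ.shift_mem x.2⟩

end RandomSubstitution

open RandomSubstitution

/-! ### The example -/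

/-- The four words: slots of the letters `1` and `2`. -/
def blk (p : Bool × Bool) : List (Fin 3) :=
  (if p.1 then [1, 0] else [0, 1]) ++ [0] ++ (if p.2 then [2, 0] else [0, 2])

/-- The example: every letter goes to `{10, 01} · 0 · {20, 02}`. -/
def theta : RandomSubstitution (Fin 3) where
  img _ := Set.range blk
  finite_img _ := Set.finite_range blk
  nonempty_img _ := Set.range_nonempty blk
  ne_nil := by
    rintro a w ⟨⟨b, c⟩, rfl⟩
    cases b <;> cases c <;> decide

/-- Concatenations of blocks. -/
def cat (bs : List (Bool × Bool)) : List (Fin 3) := (bs.map blk).flatten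

theorem cat_nil : cat [] = [] := rfl
theorem cat_cons (b : Bool × Bool) (bs : List (Bool × Bool)) : cat (b :: bs) = blk b ++ cat bs := by
  simp [cat]

theorem cat_append (bs cs : List (Bool × Bool)) : cat (bs ++ cs) = cat bs ++ cat cs := by
  simp [cat]

theorem blk_length (b : Bool × Bool) : (blk b).length = 5 := by
  rcases b with ⟨b, c⟩
  cases b <;> cases c <;> rfl

theorem mem_onWord_iff (u w : List (Fin 3)) :
    w ∈ theta.onWord u ↔ ∃ bs : List (Bool × Bool), bs.length = u.length ∧ w = cat bs := by
  induction u generalizing w with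
  | nil =>
    constructor
    · intro h
      have h' : w = [] := h
      exact ⟨[], rfl, by rw [h', cat_nil]⟩
    · rintro ⟨bs, h1, h2⟩
      have : bs = [] := List.eq_nil_of_length_eq_zero (by simpa using h1)
      subst this
      show w = []
      rw [h2, cat_nil]
  | cons a u ih =>
    constructor
    · rintro ⟨v, ⟨b, rfl⟩, v', hv', rfl⟩
      obtain ⟨bs, h1, h2⟩ := (ih v').1 hv'
      exact ⟨b :: bs, by simp [h1], by rw [cat_cons, h2]⟩
    · rintro ⟨bs, h1, h2⟩
      cases bs with
      | nil => simp at h1
      | cons b bs =>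
        refine ⟨blk b, ⟨b, rfl⟩, cat bs, (ih _).2 ⟨bs, by simpa using h1, rfl⟩, ?_⟩
        rw [h2, cat_cons]

theorem pow_zero' (a : Fin 3) : theta.pow 0 a = {[a]} := rfl

theorem pow_succ' (p : ℕ) (a : Fin 3) : theta.pow (p + 1) a = theta.onSet (theta.pow p a) := by
  unfold RandomSubstitution.pow
  rw [Function.iterate_succ_apply']

theorem exists_mem_pow (p : ℕ) (a : Fin 3) : ∃ u ∈ theta.pow p a, u.length = 5 ^ p := by
  induction p with
  | zero => exact ⟨[a], rfl, rfl⟩
  | succ p ih =>
    obtain ⟨u, hu, hl⟩ := ih
    refine ⟨cat (List.replicate u.length (true, true)), ?_, ?_⟩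
    · rw [pow_succ']
      refine Set.mem_biUnion hu ?_
      exact (mem_onWord_iff _ _).2 ⟨_, by simp, rfl⟩
    · simp only [cat, List.map_replicate, List.length_flatten, List.sum_replicate, blk_length]
      rw [hl]
      simp [pow_succ]

/-- Concatenations of blocks are legal. -/
theorem legal_cat (bs : List (Bool × Bool)) : theta.Legal (cat bs) := by
  obtain ⟨u, hu, hl⟩ := exists_mem_pow bs.length 0
  have hle : bs.length ≤ u.length := by
    rw [hl]; exact (Nat.lt_pow_self (by norm_num)).le
  refine ⟨0, bs.length + 1,
    cat (bs ++ List.replicate (u.length - bs.length) (true, true)), ?_, ?_⟩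
  · rw [pow_succ']
    refine Set.mem_biUnion hu ?_
    refine (mem_onWord_iff _ _).2 ⟨_, ?_, rfl⟩
    simp
    omega
  · rw [cat_append]
    exact (List.prefix_append _ _).isInfix

theorem legal_iff (w : List (Fin 3)) : theta.Legal w ↔ ∃ bs, w <:+: cat bs := by
  constructor
  · rintro ⟨a, p, u, hu, hw⟩
    cases p with
    | zero =>
      have h : u = [a] := hu
      subst h
      refine ⟨[(true, true)], hw.trans ?_⟩
      fin_cases a
      · exact ⟨[1], [0, 2, 0], by rfl⟩
      · exact ⟨[], [0, 0, 2, 0], by rfl⟩
      · exact ⟨[1, 0, 0], [0], by rfl⟩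
    | succ p =>
      rw [pow_succ'] at hu
      obtain ⟨v, hv, hu'⟩ := Set.mem_iUnion₂.1 hu
      obtain ⟨bs, -, rfl⟩ := (mem_onWord_iff _ _).1 hu'
      exact ⟨bs, hw⟩
  · rintro ⟨bs, hw⟩
    obtain ⟨a, p, u, hu, h⟩ := legal_cat bs
    exact ⟨a, p, u, hu, hw.trans h⟩

/-- The two-letter block rule: `0 = (0,0)`, `1 = (0,1)`, `2 = (1,0)`, and the new letter is
`(y_i, x_{i+1})`. -/
def rule (a b : Fin 3) : Fin 3 := if a = 1 then 2 else if b = 2 then 1 else 0

/-- The sliding block code on words. -/
def slide : List (Fin 3) → List (Fin 3)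
  | [] => []
  | [_] => []
  | a :: b :: u => rule a b :: slide (b :: u)

theorem slide_prefix (w t : List (Fin 3)) : slide w <+: slide (w ++ t) := by
  induction w with
  | nil => exact List.nil_prefix
  | cons a w ih =>
    cases w with
    | nil => exact List.nil_prefix
    | cons b w =>
      show rule a b :: slide (b :: w) <+: rule a b :: slide (b :: w ++ t)
      exact (List.prefix_cons_inj _).2 ih

theorem slide_suffix (s w : List (Fin 3)) : slide w <:+ slide (s ++ w) := by
  induction s with
  | nil => exact List.suffix_refl _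
  | cons a s ih =>
    cases h : s ++ w with
    | nil =>
      have : w = [] := (List.append_eq_nil_iff.1 h).2
      subst this
      exact List.nil_suffix
    | cons b u =>
      rw [List.cons_append, h]
      rw [h] at ih
      exact ih.trans (List.suffix_cons _ _)

theorem slide_infix {w u : List (Fin 3)} (h : w <:+: u) : slide w <:+: slide u := by
  obtain ⟨s, t, rfl⟩ := h
  exact (slide_suffix s w).isInfix.trans (slide_prefix (s ++ w) t).isInfix

/-- The image of a block. -/
def psi (p : Bool × Bool) : List (Fin 3) :=
  (if p.1 then [2, 0] else [0, 2]) ++ (if p.2 then [1, 0] else [0, 1]) ++ [0]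

def psicat (bs : List (Bool × Bool)) : List (Fin 3) := (bs.map psi).flatten

theorem slide_blk_cons (b : Bool × Bool) (c : Fin 3) (hc : c ≠ 2) (u : List (Fin 3)) :
    slide (blk b ++ c :: u) = psi b ++ slide (c :: u) := by
  rcases b with ⟨b, b'⟩
  fin_cases c
  · cases b <;> cases b' <;> rfl
  · cases b <;> cases b' <;> rfl
  · exact absurd rfl hc

theorem blk_eq_cons (b : Bool × Bool) : ∃ (c : Fin 3) (v : List (Fin 3)), c ≠ 2 ∧
    blk b = c :: v := by
  rcases b with ⟨b, b'⟩
  cases b <;> cases b'
  · exact ⟨0, _, by decide, rfl⟩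
  · exact ⟨0, _, by decide, rfl⟩
  · exact ⟨1, _, by decide, rfl⟩
  · exact ⟨1, _, by decide, rfl⟩

theorem slide_cat (bs : List (Bool × Bool)) : slide (cat bs) <+: psicat bs := by
  induction bs with
  | nil => exact List.nil_prefix
  | cons b bs ih =>
    cases bs with
    | nil =>
      rcases b with ⟨b, b'⟩
      cases b <;> cases b'
      · exact ⟨[0], rfl⟩
      · exact ⟨[0], rfl⟩
      · exact ⟨[0], rfl⟩
      · exact ⟨[0], rfl⟩
    | cons b' bs =>
      obtain ⟨c, v, hc, hv⟩ := blk_eq_cons b'
      have e : cat (b' :: bs) = c :: (v ++ cat bs) := by rw [cat_cons, hv]; rfl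
      have e' : psicat (b :: b' :: bs) = psi b ++ psicat (b' :: bs) := by simp [psicat]
      rw [cat_cons, e', e, slide_blk_cons b c hc, ← e]
      exact (List.prefix_append_right_inj _).2 ih

theorem psicat_infix (bs : List (Bool × Bool)) (a : Bool) :
    ∃ cs, (if a then [1, 0] else [0, 1]) ++ [0] ++ psicat bs ++ [2, 0] = cat cs := by
  induction bs generalizing a with
  | nil => exact ⟨[(a, true)], by simp [psicat, cat, blk]⟩
  | cons b bs ih =>
    obtain ⟨cs, hcs⟩ := ih b.2
    refine ⟨(a, b.1) :: cs, ?_⟩
    rw [cat_cons, ← hcs]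
    simp [psicat, psi, blk, List.append_assoc]

theorem legal_slide {w : List (Fin 3)} (h : theta.Legal w) : theta.Legal (slide w) := by
  obtain ⟨bs, hbs⟩ := (legal_iff w).1 h
  obtain ⟨cs, hcs⟩ := psicat_infix bs true
  refine (legal_iff _).2 ⟨cs, ?_⟩
  refine (slide_infix hbs).trans ((slide_cat bs).isInfix.trans ?_)
  rw [← hcs]
  exact ⟨_, _, rfl⟩

theorem no_one_two (bs : List (Bool × Bool)) : ¬ [1, 2] <:+: cat bs := by
  intro h
  have hch : List.IsChain (fun a b : Fin 3 => ¬ (a = 1 ∧ b = 2)) (cat bs) := by
    unfold cat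
    rw [List.isChain_flatten]
    · refine ⟨?_, ?_⟩
      · intro l hl
        obtain ⟨⟨b, b'⟩, -, rfl⟩ := List.mem_map.1 hl
        cases b <;> cases b' <;> decide
      · rw [List.isChain_map]
        apply List.Pairwise.isChain
        rw [List.pairwise_iff_forall_sublist]
        rintro ⟨a, a'⟩ ⟨b, b'⟩ -
        cases a <;> cases a' <;> cases b <;> cases b' <;> decide
    · intro hn
      obtain ⟨⟨b, b'⟩, -, hb⟩ := List.mem_map.1 hn
      have := blk_length (b, b')
      rw [hb] at this
      simp at this
  obtain ⟨s, t, e⟩ := h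
  rw [← e, List.isChain_append] at hch
  have := (List.isChain_append.1 hch.1).2.1
  simp at this

theorem mem_X_no {x : ℤ → Fin 3} (hx : x ∈ theta.X) (i : ℤ) : ¬ (x i = 1 ∧ x (i + 1) = 2) := by
  rintro ⟨h1, h2⟩
  obtain ⟨bs, hbs⟩ := (legal_iff _).1 (hx i 2)
  refine no_one_two bs ?_
  have e : window x i 2 = [1, 2] := by
    simp [window, List.range_succ, h1, h2]
  rwa [e] at hbs

theorem window_succ (x : ℤ → Fin 3) (i : ℤ) (n : ℕ) :
    window x i (n + 1) = x i :: window x (i + 1) n := by
  unfold window
  rw [List.range_succ_eq_map, List.map_cons, List.map_map]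
  simp only [Nat.cast_zero, add_zero]
  congr 1
  apply List.map_congr_left
  intro j _
  show x (i + ((j + 1 : ℕ) : ℤ)) = x (i + 1 + (j : ℤ))
  congr 1
  push_cast
  ring

theorem window_rule (x : ℤ → Fin 3) (i : ℤ) (n : ℕ) :
    window (fun j => rule (x j) (x (j + 1))) i n = slide (window x i (n + 1)) := by
  induction n generalizing i with
  | zero => simp [window, slide]
  | succ n ih =>
    rw [window_succ, ih, window_succ x i (n + 1), window_succ x (i + 1) n]
    rfl

/-- The square root of the shift on sequences. -/
def root (x : theta.X) : theta.X :=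
  ⟨fun i => rule (x.1 i) (x.1 (i + 1)), fun i n => by
    rw [window_rule]
    exact legal_slide (x.2 i (n + 1))⟩

theorem rule_rule (a b c : Fin 3) (h1 : ¬ (a = 1 ∧ b = 2)) (h2 : ¬ (b = 1 ∧ c = 2)) :
    rule (rule a b) (rule b c) = b := by
  revert h1 h2
  revert a b c
  decide

theorem root_root (x : theta.X) : root (root x) = theta.shift x := by
  apply Subtype.ext
  funext i
  exact rule_rule _ _ _ (mem_X_no x.2 i) (mem_X_no x.2 (i + 1))

theorem root_shift (x : theta.X) : root (theta.shift x) = theta.shift (root x) := rfl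

theorem continuous_root : Continuous root := by
  refine Continuous.subtype_mk (continuous_pi fun i => ?_) _
  have h : Continuous fun p : Fin 3 × Fin 3 => rule p.1 p.2 := continuous_of_discreteTopology
  have h1 : Continuous fun x : theta.X => x.1 i :=
    (continuous_apply i).comp continuous_subtype_val
  have h2 : Continuous fun x : theta.X => x.1 (i + 1) :=
    (continuous_apply (i + 1)).comp continuous_subtype_val
  exact h.comp (h1.prodMk h2)

theorem legal_of_infix {w u : List (Fin 3)} (h : w <:+: u) (hu : theta.Legal u) :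
    theta.Legal w := by
  obtain ⟨a, p, v, hv, h'⟩ := hu
  exact ⟨a, p, v, hv, h.trans h'⟩

theorem unshift_mem {x : ℤ → Fin 3} (hx : x ∈ theta.X) : (fun i => x (i - 1)) ∈ theta.X := by
  intro i n
  have h := hx (i - 1) n
  have e : window (fun i => x (i - 1)) i n = window x (i - 1) n := by
    unfold window
    apply List.map_congr_left
    intro j _
    show x (i + (j : ℤ) - 1) = x (i - 1 + (j : ℤ))
    congr 1
    ring
  rw [e]
  exact h

def unshift (x : theta.X) : theta.X := ⟨fun i => x.1 (i - 1), unshift_mem x.2⟩

theorem unshift_shift (x : theta.X) : unshift (theta.shift x) = x := by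
  apply Subtype.ext
  funext i
  show x.1 (i - 1 + 1) = x.1 i
  rw [sub_add_cancel]

theorem shift_unshift (x : theta.X) : theta.shift (unshift x) = x := by
  apply Subtype.ext
  funext i
  show x.1 (i + 1 - 1) = x.1 i
  rw [add_sub_cancel_right]

theorem continuous_unshift : Continuous unshift := by
  refine Continuous.subtype_mk (continuous_pi fun i => ?_) _
  exact (continuous_apply (i - 1)).comp continuous_subtype_val

/-- The square root as a homeomorphism. -/
def rootHomeo : theta.X ≃ₜ theta.X where
  toFun := root
  invFun := fun x => unshift (root x)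
  left_inv := fun x => by
    show unshift (root (root x)) = x
    rw [root_root, unshift_shift]
  right_inv := fun x => by
    show root (unshift (root x)) = x
    have h : root x = root (theta.shift (unshift x)) := by rw [shift_unshift]
    rw [h, root_shift, unshift_shift, root_root, shift_unshift]
  continuous_toFun := continuous_root
  continuous_invFun := continuous_unshift.comp continuous_root

theorem theta_primitive : theta.Primitive := by
  refine ⟨1, le_refl _, fun a b => ⟨blk (true, true), ?_, ?_⟩⟩
  · rw [pow_succ']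
    refine Set.mem_biUnion (x := [b]) rfl ?_
    exact (mem_onWord_iff _ _).2 ⟨[(true, true)], rfl, by simp [cat]⟩
  · fin_cases a <;> decide

theorem theta_compatible : theta.Compatible := by
  rintro a u ⟨⟨b, b'⟩, rfl⟩ v ⟨⟨c, c'⟩, rfl⟩ d
  revert d b b' c c'
  decide

theorem theta_nonDegenerate : theta.NonDegenerate := by
  refine ⟨0, ?_⟩
  have h : ({blk (true, true), blk (true, false)} : Set (List (Fin 3))).ncard = 2 := by
    rw [Set.ncard_pair]
    decide
  refine h.symm.le.trans ?_
  refine Set.ncard_le_ncard ?_ (theta.finite_img 0)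
  rintro w (rfl | rfl)
  · exact ⟨_, rfl⟩
  · exact ⟨_, rfl⟩

/-- There is a primitive, compatible, non-degenerate random substitution (on three letters) for
which the shift has a square root in the automorphism group of the RS-subshift. -/
theorem result : ∃ θ : RandomSubstitution (Fin 3), θ.Primitive ∧ θ.Compatible ∧ θ.NonDegenerate ∧
    ∃ f : θ.X ≃ₜ θ.X, (∀ x, f (θ.shift x) = θ.shift (f x)) ∧ ∀ x, f (f x) = θ.shift x :=
  ⟨theta, theta_primitive, theta_compatible, theta_nonDegenerate, rootHomeo,
    fun x => root_shift x, fun x => root_root x⟩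

end Pool.Agent.Results.MP_0ef12e_an.SquareRootOfShift
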